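import Mathlib
import Pool.Agent.Work.MP_ce2d68_du_h33.Main

set_option autoImplicit false

open Polynomial

/-!
Completeness of the method of auxiliary functions for the sector Mahler measure constants.
-/

namespace Pool.Agent.Results.MP_ce2d68_nt.AuxiliaryDuality

/-- nonzero algebraic integers, no roots of unity, all of whose conjugates lie in the sector
`|arg z| ≤ θ` -/
def IsSec (θ : ℝ) (α : ℂ) : Prop :=
  IsIntegral ℤ α ∧ α ≠ 0 ∧ (∀ n : ℕ, 0 < n → α ^ n ≠ 1) ∧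
    ∀ β : ℂ, aeval β (minpoly ℤ α) = 0 → |β.arg| ≤ θ

/-- `M(α)^(1/deg α)` -/
noncomputable def nM (α : ℂ) : ℝ :=
  ((minpoly ℤ α).map (Int.castRingHom ℂ)).mahlerMeasure ^ (1 / ((minpoly ℤ α).natDegree : ℝ))

/-- the constant `c_θ` of Rhin and Smyth -/
noncomputable def cth (θ : ℝ) : ℝ := sInf (nM '' {α | IsSec θ α})

/-- the essential constant: the infimum of the `v` such that infinitely many `α` in the sector
satisfy `M(α)^(1/deg α) < v` -/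
noncomputable def ess (θ : ℝ) : ℝ := sInf {v : ℝ | {α : ℂ | IsSec θ α ∧ nM α < v}.Infinite}

/-- `c` is a staircase function on `[a, b)` -/
def Stair (c : ℝ → ℝ) (a b : ℝ) : Prop :=
  ∃ I : Set (ℝ × ℝ), I.Countable ∧ (∀ u ∈ I, u.1 < u.2) ∧
    (⋃ u ∈ I, Set.Ico u.1 u.2) = Set.Ico a b ∧
    (I.PairwiseDisjoint fun u => Set.Ico u.1 u.2) ∧
    ∀ u ∈ I, ∀ x ∈ Set.Ico u.1 u.2, ∀ y ∈ Set.Ico u.1 u.2, c x = c y

/-- an auxiliary polynomial `Q` with `v^n |Q(z)| ≤ max(1,|z|)^n` in the sector: it proves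
`M(α)^(1/deg α) ≥ v` for all `α` in the sector with `Q(α) ≠ 0` -/
def Cert (θ v : ℝ) : Prop :=
  ∃ (n : ℕ) (Q : ℤ[X]), 1 ≤ n ∧ Q ≠ 0 ∧
    ∀ z : ℂ, |z.arg| ≤ θ → v ^ n * ‖(Q.map (Int.castRingHom ℂ)).eval z‖ ≤ (max 1 ‖z‖) ^ n

theorem result :
    (∀ θ ∈ Set.Ioo 0 Real.pi,
      -- strong duality: the essential constant is the best constant of the auxiliary polynomials
      (∀ v : ℝ, v < ess θ → Cert θ v) ∧ (∀ v : ℝ, Cert θ v → v ≤ ess θ) ∧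
      -- `c` is locally constant to the right of `θ` iff an auxiliary polynomial beats `c_θ`
      ((∃ ε : ℝ, 0 < ε ∧ ∀ θ' ∈ Set.Ico θ (θ + ε), cth θ' = cth θ) ↔
        ∃ v : ℝ, cth θ < v ∧ Cert θ v)) ∧
    -- the staircase question
    (Stair cth 0 Real.pi ↔ ∀ θ ∈ Set.Ioo 0 Real.pi, ∃ v : ℝ, cth θ < v ∧ Cert θ v) :=
  Pool.Agent.Work.MP_ce2d68_du.h33.p_FIN Pool.Agent.Work.MP_ce2d68_du.h33.q_DUAL
    Pool.Agent.Work.MP_ce2d68_du.h33.q_WEAK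

end Pool.Agent.Results.MP_ce2d68_nt.AuxiliaryDuality
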