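import Mathlib
import Pool.Agent.Work.MP_ce2d68_st_helper90.All
import Pool.Agent.Work.MP_ce2d68_st_helper90.ESS
import Pool.Agent.Work.MP_ce2d68_np.All

set_option autoImplicit false

open Polynomial

/-!
The sector Mahler measure constants of Rhin and Smyth near 180 degrees: order of magnitude, and
lengths of the intervals of constancy.
-/

namespace Pool.Agent.Results.MP_ce2d68_nt.NearPi

/-- nonzero algebraic integers all of whose conjugates lie in the sector `|arg z| ≤ θ` -/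
def InSector (θ : ℝ) (α : ℂ) : Prop :=
  IsIntegral ℤ α ∧ α ≠ 0 ∧ ∀ β : ℂ, aeval β (minpoly ℤ α) = 0 → |β.arg| ≤ θ

/-- those which are no roots of unity -/
def IsSec (θ : ℝ) (α : ℂ) : Prop :=
  InSector θ α ∧ ∀ n : ℕ, 0 < n → α ^ n ≠ 1

/-- the Mahler measure of an algebraic integer -/
noncomputable def M (α : ℂ) : ℝ := ((minpoly ℤ α).map (Int.castRingHom ℂ)).mahlerMeasure

/-- the degree of an algebraic integer -/
noncomputable def deg (α : ℂ) : ℕ := (minpoly ℤ α).natDegree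

/-- the constant `c_θ` of Rhin and Smyth -/
noncomputable def cth (θ : ℝ) : ℝ :=
  sInf ((fun α : ℂ => M α ^ (1 / (deg α : ℝ))) '' {α | IsSec θ α})

/-- the essential constant: the infimum of the `v` such that infinitely many `α` in the sector
satisfy `M(α)^(1/deg α) < v` -/
noncomputable def ess (θ : ℝ) : ℝ :=
  sInf {v : ℝ | {α : ℂ | IsSec θ α ∧ M α ^ (1 / (deg α : ℝ)) < v}.Infinite}

/-- `L(θ) = 1 - (3/4) cos(θ/2)²` -/
noncomputable def L (θ : ℝ) : ℝ := 1 - 3 / 4 * Real.cos (θ / 2) ^ 2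

theorem isSec_iff (θ : ℝ) (α : ℂ) : Pool.Agent.Work.MP_ce2d68_st.IsSec θ α ↔ IsSec θ α := by
  constructor
  · rintro ⟨h1, h2, h3, h4⟩
    exact ⟨⟨h1, h2, h4⟩, h3⟩
  · rintro ⟨⟨h1, h2, h4⟩, h3⟩
    exact ⟨h1, h2, h3, h4⟩

theorem isSec_eq (θ : ℝ) : {α : ℂ | IsSec θ α} = {α | Pool.Agent.Work.MP_ce2d68_st.IsSec θ α} := by
  ext α
  exact (isSec_iff θ α).symm

theorem cth_eq : cth = Pool.Agent.Work.MP_ce2d68_st.cth := by
  funext θ
  rw [cth, isSec_eq]
  rfl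

theorem ess_eq : ess = Pool.Agent.Work.MP_ce2d68_st.helper90.ess := by
  funext θ
  have h : ∀ v : ℝ, {α : ℂ | IsSec θ α ∧ M α ^ (1 / (deg α : ℝ)) < v}
      = {α : ℂ | Pool.Agent.Work.MP_ce2d68_st.IsSec θ α ∧ Pool.Agent.Work.MP_ce2d68_st.nM α < v} := by
    intro v
    ext α
    simp only [Set.mem_setOf_eq, ← isSec_iff]
    rfl
  rw [ess, Pool.Agent.Work.MP_ce2d68_st.helper90.ess]
  simp only [h]

theorem result :
    -- explicit Langevin bound
    (∀ θ ∈ Set.Ico 0 Real.pi, ∀ α : ℂ, InSector θ α →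
      L θ ^ (-(deg α / 8 : ℝ)) / (8 * √(deg α)) ≤ M α) ∧
    -- the essential constant
    (∀ θ ∈ Set.Ioo 0 Real.pi, L θ ^ (-(1 / 8 : ℝ)) ≤ ess θ ∧ cth θ ≤ ess θ ∧
      ess θ ≤ 1 / Real.sin (θ / 2)) ∧
    -- the constant `c_θ`
    (∃ k : ℝ, 0 < k ∧ ∀ θ ∈ Set.Ico 0 Real.pi,
      k * (Real.pi - θ) ^ 2 / Real.log (4 / (Real.pi - θ)) ^ 9 ≤ Real.log (cth θ)) ∧
    -- intervals of constancy
    (∃ K : ℝ, 0 < K ∧ ∀ a b : ℝ, 0 ≤ a → a < b → b ≤ Real.pi →
      (∀ x ∈ Set.Ico a b, ∀ y ∈ Set.Ico a b, cth x = cth y) →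
      b < Real.pi ∧
        (Real.pi - a) ^ 2 ≤ K * (Real.pi - b) ^ 2 * Real.log (4 / (Real.pi - b)) ^ 9) := by
  rw [cth_eq, ess_eq]
  have hLpos : ∀ θ : ℝ, 0 < L θ := by
    intro θ
    have : Real.cos (θ / 2) ^ 2 ≤ 1 := Real.cos_sq_le_one _
    rw [L]
    linarith
  have hlam : ∀ θ : ℝ, Pool.Agent.Work.MP_ce2d68_np.lam θ = L θ := fun θ => rfl
  have hlog : ∀ θ : ℝ, Real.log (1 / L θ) = -Real.log (L θ) := by
    intro θ
    rw [one_div, Real.log_inv]
  refine ⟨?_, ?_, ?_, ?_⟩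
  · rintro θ ⟨h0, h1⟩ α ⟨hα, hα0, hconj⟩
    have hmon := minpoly.monic hα
    have hirr := minpoly.irreducible hα
    have hX : minpoly ℤ α ≠ X := by
      intro h
      have h2 := minpoly.aeval ℤ α
      rw [h, aeval_X] at h2
      exact hα0 h2
    have hsec : ∀ z ∈ Pool.Agent.Work.MP_ce2d68_st.rts (minpoly ℤ α), |z.arg| ≤ θ := by
      intro z hz
      apply hconj
      rw [Pool.Agent.Work.MP_ce2d68_st.rts, Multiset.mem_toFinset,
        Pool.Agent.Work.MP_ce2d68_st.cp, mem_roots (hmon.map _).ne_zero, IsRoot.def,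
        eval_map] at hz
      rw [aeval_def]
      exact hz
    have h2 := Pool.Agent.Work.MP_ce2d68_np.f_VDM θ (minpoly ℤ α) h0 h1 hmon hirr hX hsec
    rw [hlam, hlog] at h2
    have hd : 0 < (minpoly ℤ α).natDegree :=
      (Pool.Agent.Work.MP_ce2d68_st.helper90.p_BAS _ hmon hirr).1
    have hd' : (0 : ℝ) < deg α := by exact_mod_cast hd
    have hMpos : 0 < M α := by
      rw [M]
      exact Polynomial.mahlerMeasure_pos_of_ne_zero (hmon.map _).ne_zero
    have h3 : L θ ^ (-(deg α / 8 : ℝ)) / (8 * √(deg α))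
        = Real.exp ((deg α : ℝ) / 8 * -Real.log (L θ) - 1 / 2 * Real.log (64 * deg α)) := by
      rw [Real.exp_sub, Real.rpow_def_of_pos (hLpos θ)]
      congr 1
      · congr 1
        ring
      · have h4 : (8 : ℝ) * √(deg α) = √(64 * deg α) := by
          rw [Real.sqrt_mul (by norm_num), show (64 : ℝ) = 8 ^ 2 by norm_num,
            Real.sqrt_sq (by norm_num)]
        rw [h4, Real.sqrt_eq_rpow, Real.rpow_def_of_pos (by positivity)]
        congr 1
        ring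
    rw [h3, ← Real.exp_log hMpos]
    exact Real.exp_le_exp.mpr h2
  · rintro θ ⟨h0, h1⟩
    have hess := Pool.Agent.Work.MP_ce2d68_st.helper90.ess_eq
      Pool.Agent.Work.MP_ce2d68_st.helper90.p_LEP Pool.Agent.Work.MP_ce2d68_st.helper90.p_TRL
      θ h0 h1
    obtain ⟨-, hach, hmin⟩ := Pool.Agent.Work.MP_ce2d68_st.helper90.p_LEP.1 θ h0 h1
    have hsin : 0 < Real.sin (θ / 2) :=
      Real.sin_pos_of_pos_of_lt_pi (by linarith) (by linarith [Real.pi_pos])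
    rw [hess]
    refine ⟨?_, ?_, ?_⟩
    · have h2 := Pool.Agent.Work.MP_ce2d68_np.f_ESL θ _ h0 h1 hach
      rw [hlam, hlog] at h2
      rw [Real.rpow_def_of_pos (hLpos θ)]
      apply Real.exp_le_exp.mpr
      linarith
    · exact (Pool.Agent.Work.MP_ce2d68_np.STA_up
        Pool.Agent.Work.MP_ce2d68_st.helper90.p_TRL hach).2
    · apply le_of_forall_gt_imp_ge_of_dense
      intro R hR
      have hR0 : 0 < R := lt_trans (by positivity) hR
      have h3 := hmin _ (Pool.Agent.Work.MP_ce2d68_np.f_UPB θ R h0 h1 hR)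
      rw [← Real.exp_log hR0]
      exact Real.exp_le_exp.mpr h3
  · obtain ⟨k, hk, H⟩ := Pool.Agent.Work.MP_ce2d68_np.f_LOC
    refine ⟨k, hk, ?_⟩
    rintro θ ⟨h0, h1⟩
    have hne : {α | Pool.Agent.Work.MP_ce2d68_st.IsSec θ α}.Nonempty := by
      have hG := Pool.Agent.Work.MP_ce2d68_st.helper52.stmt_GOL.1
      have hG' : Pool.Agent.Work.MP_ce2d68_st.Adm θ (X ^ 2 - 3 * X + 1) :=
        ⟨hG.1, hG.2.1, hG.2.2.1, fun z hz => (hG.2.2.2.1 z hz).trans h0, hG.2.2.2.2⟩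
      obtain ⟨⟨α, hα⟩, h2⟩ := Pool.Agent.Work.MP_ce2d68_st.helper90.p_TRL.2 θ _ hG'
      exact ⟨α, (h2 α hα).1⟩
    have h2 := Pool.Agent.Work.MP_ce2d68_np.STA_low
      Pool.Agent.Work.MP_ce2d68_st.helper90.p_TRL (fun P hP => H θ P h0 h1 hP) hne
    have h3 := Real.log_le_log (Real.exp_pos _) h2
    rwa [Real.log_exp] at h3
  · exact Pool.Agent.Work.MP_ce2d68_np.f_STA

end Pool.Agent.Results.MP_ce2d68_nt.NearPi
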