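import Mathlib
import Pool.Agent.Work.MP_ce2d68_st_helper90.All
import Pool.Agent.Work.MP_ce2d68_st_helper90.ESS

set_option autoImplicit false

open Polynomial

/-!
Quantitative isolation of the Mahler measures below the essential constant of a sector.
-/

namespace Pool.Agent.Results.MP_ce2d68_nt.SparseBelow

/-- nonzero algebraic integers, no roots of unity, all of whose conjugates lie in the sector
`|arg z| ≤ θ` -/
def IsSec (θ : ℝ) (α : ℂ) : Prop :=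
  IsIntegral ℤ α ∧ α ≠ 0 ∧ (∀ n : ℕ, 0 < n → α ^ n ≠ 1) ∧
    ∀ β : ℂ, aeval β (minpoly ℤ α) = 0 → |β.arg| ≤ θ

/-- the Mahler measure of an algebraic integer -/
noncomputable def M (α : ℂ) : ℝ := ((minpoly ℤ α).map (Int.castRingHom ℂ)).mahlerMeasure

/-- the degree of an algebraic integer -/
noncomputable def deg (α : ℂ) : ℕ := (minpoly ℤ α).natDegree

/-- the essential constant: the infimum of the `v` such that infinitely many `α` in the sector
satisfy `M(α)^(1/deg α) < v` -/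
noncomputable def ess (θ : ℝ) : ℝ :=
  sInf {v : ℝ | {α : ℂ | IsSec θ α ∧ M α ^ (1 / (deg α : ℝ)) < v}.Infinite}

theorem result :
    ∀ θ₀ ∈ Set.Ioo 0 Real.pi, ∃ k : ℝ, 0 < k ∧ ∀ θ ∈ Set.Ico θ₀ Real.pi, ∀ A : Finset ℂ,
      (∀ α ∈ A, IsSec θ α) → (∀ α ∈ A, ∀ β ∈ A, minpoly ℤ α = minpoly ℤ β → α = β) →
      -- a whole family of pairwise non-conjugate numbers has essentially no deficit
      (∑ α ∈ A, (deg α * Real.log (ess θ) - Real.log (M α))
        ≤ k * Real.log (1 + ∑ α ∈ A, deg α)) ∧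
      -- total degree of the numbers with `M(α)^(1/deg α) ≤ e^(-δ) ess θ`
      ∀ δ : ℝ, 0 < δ → δ ≤ 1 → (∀ α ∈ A, M α ^ (1 / (deg α : ℝ)) ≤ Real.exp (-δ) * ess θ) →
        ∑ α ∈ A, (deg α : ℝ) ≤ k * Real.log (2 / δ) / δ := by
  obtain ⟨C, -, -, hmain, hfam, -, -, -⟩ := Pool.Agent.Work.MP_ce2d68_st.helper90.p_FIN
  have hE : ∀ θ ∈ Set.Ioo 0 Real.pi, ess θ = C θ := fun θ hθ =>
    Pool.Agent.Work.MP_ce2d68_st.helper90.ess_of C θ (hmain θ hθ).2.2.1 (hmain θ hθ).2.2.2.1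
  intro θ₀ hθ₀
  obtain ⟨k, hk, H⟩ := hfam θ₀ hθ₀
  refine ⟨k, hk, ?_⟩
  intro θ hθ A hA hinj
  have hθ' : θ ∈ Set.Ioo 0 Real.pi := ⟨by linarith [hθ₀.1, hθ.1], hθ.2⟩
  obtain ⟨h1, h2⟩ := H θ hθ A hA hinj
  rw [hE θ hθ']
  refine ⟨?_, h2⟩
  have h3 : ∑ α ∈ A, (deg α * Real.log (C θ) - Real.log (M α))
      = ∑ α ∈ A, (minpoly ℤ α).natDegree * (Real.log (C θ)
        - Real.log (Pool.Agent.Work.MP_ce2d68_st.nM α)) := by
    apply Finset.sum_congr rfl
    intro α hα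
    obtain ⟨hAdm, hnM, -⟩ := Pool.Agent.Work.MP_ce2d68_st.helper90.p_TRL.1 θ α (hA α hα)
    have hd : ((minpoly ℤ α).natDegree : ℝ) ≠ 0 := by
      have := (Pool.Agent.Work.MP_ce2d68_st.helper90.p_BAS _ hAdm.1 hAdm.2.1).1
      positivity
    rw [hnM, Real.log_exp]
    have h4 : Pool.Agent.Work.MP_ce2d68_st.lv (minpoly ℤ α)
        = Real.log (M α) / (minpoly ℤ α).natDegree := rfl
    rw [h4, deg]
    field_simp
  rw [h3]
  exact h1

end Pool.Agent.Results.MP_ce2d68_nt.SparseBelow
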