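import Mathlib
import Pool.Agent.Work.MP_ce2d68_st_helper90.All
import Pool.Agent.Work.MP_ce2d68_st_helper90.ESS

set_option autoImplicit false

open Polynomial

/-!
Structure theorem for the sector Mahler measure constants of Rhin and Smyth.
-/

namespace Pool.Agent.Results.MP_ce2d68_nt.StaircaseCriterion

/-- nonzero algebraic integers, no roots of unity, all of whose conjugates lie in the sector
`|arg z| ≤ θ` -/
def IsSec (θ : ℝ) (α : ℂ) : Prop :=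
  IsIntegral ℤ α ∧ α ≠ 0 ∧ (∀ n : ℕ, 0 < n → α ^ n ≠ 1) ∧
    ∀ β : ℂ, aeval β (minpoly ℤ α) = 0 → |β.arg| ≤ θ

/-- `M(α)^(1/deg α)` -/
noncomputable def nM (α : ℂ) : ℝ :=
  ((minpoly ℤ α).map (Int.castRingHom ℂ)).mahlerMeasure ^ (1 / ((minpoly ℤ α).natDegree : ℝ))

/-- the constant `c_θ` of Rhin and Smyth -/
noncomputable def cth (θ : ℝ) : ℝ := sInf (nM '' {α | IsSec θ α})

/-- the essential constant: the infimum of the `v` such that infinitely many `α` in the sector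
satisfy `M(α)^(1/deg α) < v` -/
noncomputable def ess (θ : ℝ) : ℝ := sInf {v : ℝ | {α : ℂ | IsSec θ α ∧ nM α < v}.Infinite}

/-- `c` is a staircase function on `[a, b)` -/
def Stair (c : ℝ → ℝ) (a b : ℝ) : Prop :=
  ∃ I : Set (ℝ × ℝ), I.Countable ∧ (∀ u ∈ I, u.1 < u.2) ∧
    (⋃ u ∈ I, Set.Ico u.1 u.2) = Set.Ico a b ∧
    (I.PairwiseDisjoint fun u => Set.Ico u.1 u.2) ∧
    ∀ u ∈ I, ∀ x ∈ Set.Ico u.1 u.2, ∀ y ∈ Set.Ico u.1 u.2, c x = c y

theorem result :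
    -- the essential constant is Hoelder continuous and strictly decreasing
    StrictAntiOn ess (Set.Ioo 0 Real.pi) ∧
    (∀ θ₀ ∈ Set.Ioo 0 Real.pi, ∃ k : ℝ, 0 < k ∧ ∀ θ ∈ Set.Ico θ₀ Real.pi,
      ∀ θ' ∈ Set.Ico θ₀ Real.pi, |ess θ - ess θ'| ≤ k * √|θ - θ'|) ∧
    -- comparison with `c_θ`, isolation below the essential constant, local criterion
    (∀ θ ∈ Set.Ioo 0 Real.pi, 1 < cth θ ∧ cth θ ≤ ess θ ∧
      (∀ v < ess θ, {α | IsSec θ α ∧ nM α ≤ v}.Finite) ∧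
      (∀ v > ess θ, {α | IsSec θ α ∧ nM α < v}.Infinite) ∧
      ((∃ ε : ℝ, 0 < ε ∧ ∀ θ' ∈ Set.Ico θ (θ + ε), cth θ' = cth θ) ↔ cth θ < ess θ)) ∧
    -- right continuity
    (∀ θ ∈ Set.Ico 0 Real.pi, ContinuousWithinAt cth (Set.Ici θ) θ) ∧
    -- the staircase criterion, locally and globally
    (∀ a b : ℝ, 0 < a → a < b → b ≤ Real.pi →
      (Stair cth a b ↔ ∀ θ ∈ Set.Ico a b, cth θ < ess θ)) ∧
    (Stair cth 0 Real.pi ↔ ∀ θ ∈ Set.Ioo 0 Real.pi, cth θ < ess θ) := by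
  have hess : ∀ (C : ℝ → ℝ), (∀ θ ∈ Set.Ioo 0 Real.pi,
      (∀ v < C θ, {α | IsSec θ α ∧ nM α ≤ v}.Finite) ∧
      (∀ v > C θ, {α | IsSec θ α ∧ nM α < v}.Infinite)) →
      ∀ θ ∈ Set.Ioo 0 Real.pi, ess θ = C θ := fun C h θ hθ =>
    Pool.Agent.Work.MP_ce2d68_st.helper90.ess_of C θ (h θ hθ).1 (h θ hθ).2
  obtain ⟨C, -, hanti, hmain, -, hrc, hst, hst0⟩ := Pool.Agent.Work.MP_ce2d68_st.helper90.p_FIN
  have hE : ∀ θ ∈ Set.Ioo 0 Real.pi, ess θ = C θ :=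
    hess C fun θ hθ => ⟨(hmain θ hθ).2.2.1, (hmain θ hθ).2.2.2.1⟩
  refine ⟨?_, ?_, ?_, hrc, ?_, ?_⟩
  · intro a ha b hb hab
    rw [hE a ha, hE b hb]
    exact hanti ha hb hab
  · exact Pool.Agent.Work.MP_ce2d68_st.helper90.ess_hold
      Pool.Agent.Work.MP_ce2d68_st.helper90.p_TR0 Pool.Agent.Work.MP_ce2d68_st.helper90.p_LEP
      Pool.Agent.Work.MP_ce2d68_st.helper90.p_TRL
  · intro θ hθ
    rw [hE θ hθ]
    exact hmain θ hθ
  · intro a b ha hab hb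
    have h1 := hst a b ha hab hb
    constructor
    · intro h θ hθ
      rw [hE θ ⟨by linarith [hθ.1], by linarith [hθ.2]⟩]
      exact h1.mp h θ hθ
    · intro h
      refine h1.mpr fun θ hθ => ?_
      rw [← hE θ ⟨by linarith [hθ.1], by linarith [hθ.2]⟩]
      exact h θ hθ
  · constructor
    · intro h θ hθ
      rw [hE θ hθ]
      exact hst0.mp h θ hθ
    · intro h
      refine hst0.mpr fun θ hθ => ?_
      rw [← hE θ hθ]
      exact h θ hθ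

end Pool.Agent.Results.MP_ce2d68_nt.StaircaseCriterion
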